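import Pool.Agent.RokProd.GLevel

/-!
# Additivity of Rokhlin entropy and finite index subgroups

Let `X` have an infinite profinite factor: a decreasing chain `H n` of finite index subgroups of
`G`, of index tending to infinity, with compatible equivariant maps `X → G ⧸ H n` (a `Tower`), and
let `X n` be the fibre over the trivial coset, on which `H n` acts.  Then
`h_{H n} (X n) = [G : H n] h_G X`; if `h_G X` is finite, additivity for `(X, Y)` over `G` is
equivalent to additivity for `(X n, Y)` over `H n` together with the finite index formula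
`h_{H n} Y = [G : H n] h_G Y`; and the implication of Q2 holds for `(X, Y)` over `G` if and only if
it holds for `(X n, Y)` over `H n`.
-/

open MeasureTheory Pool.Agent.RokProd
open scoped ENNReal

namespace Pool.Agent.Results.MP_f9a59b_an.FibreReduction

theorem result {G X Y : Type*} [Group G] [Countable G] [MulAction G X] [MulAction G Y]
    [MeasurableSpace X] [MeasurableSpace Y] [MeasurableConstSMul G X] [MeasurableConstSMul G Y]
    (μ : Measure X) [IsProbabilityMeasure μ] [SMulInvariantMeasure G X μ]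
    (ν : Measure Y) [IsProbabilityMeasure ν] [SMulInvariantMeasure G Y ν] (T : Tower G X)
    (n : ℕ) :
    rok (T.H n) (ProbabilityTheory.cond μ (T.A n)) = ((T.H n).index : ℝ≥0∞) * rok G μ ∧
    (rok G μ ≠ ⊤ → (rok G (μ.prod ν) = rok G μ + rok G ν ↔
      (rok (T.H n) ((ProbabilityTheory.cond μ (T.A n)).prod ν) =
        rok (T.H n) (ProbabilityTheory.cond μ (T.A n)) + rok (T.H n) ν ∧
      rok (T.H n) ν = ((T.H n).index : ℝ≥0∞) * rok G ν))) ∧
    ((rok G (μ.prod ν) ≠ ⊤ → rok G μ ≠ ⊤ ∨ rok G ν ≠ ⊤) ↔
      (rok (T.H n) ((ProbabilityTheory.cond μ (T.A n)).prod ν) ≠ ⊤ →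
        rok (T.H n) (ProbabilityTheory.cond μ (T.A n)) ≠ ⊤ ∨ rok (T.H n) ν ≠ ⊤)) :=
  ⟨T.fibre_eq μ n, fun hμ => T.additive_iff μ ν hμ n, T.finite_iff μ ν n⟩

end Pool.Agent.Results.MP_f9a59b_an.FibreReduction
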