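import Pool.Agent.RokProd.GLevel

/-!
# Rokhlin entropy of a product with a profinite action

A `Tower G X` is a decreasing chain `H n` of finite index subgroups of `G`, of index tending to
infinity, with compatible equivariant maps `X → G ⧸ H n`; `X` is profinite if these maps generate
the `σ`-algebra of `X`.  Then `h_G X = 0`, and for every `Y` of finite Rokhlin entropy
`h_G (X × Y) = inf_n h_{H n} Y / [G : H n]`, so additivity for the pair `(X, Y)` is equivalent to
the finite index formula `h_{H n} Y = [G : H n] h_G Y` for all `n`.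
-/

open MeasureTheory Pool.Agent.RokProd
open scoped ENNReal

namespace Pool.Agent.Results.MP_f9a59b_an.ProfiniteFactor

theorem result {G X Y : Type*} [Group G] [Countable G] [MulAction G X] [MulAction G Y]
    [MeasurableSpace X] [MeasurableSpace Y] [MeasurableConstSMul G X] [MeasurableConstSMul G Y]
    (μ : Measure X) [IsProbabilityMeasure μ] [SMulInvariantMeasure G X μ]
    (ν : Measure Y) [IsProbabilityMeasure ν] [SMulInvariantMeasure G Y ν] (T : Tower G X)
    (hprof : T.Profinite μ) (hY : rok G ν ≠ ⊤) :
    rok G μ = 0 ∧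
    rok G (μ.prod ν) = ⨅ n, rok (T.H n) ν / ((T.H n).index : ℝ≥0∞) ∧
    (rok G (μ.prod ν) = rok G μ + rok G ν ↔
      ∀ n, rok (T.H n) ν = ((T.H n).index : ℝ≥0∞) * rok G ν) :=
  T.profinite_formula μ hprof ν hY

end Pool.Agent.Results.MP_f9a59b_an.ProfiniteFactor
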