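import Pool.Agent.RokProd.GLevel

/-!
# Q1 with a profinite factor is the finite index formula

Let `G` be an infinite countable residually finite group and `Y` a p.m.p. action of finite
Rokhlin entropy.  Rokhlin entropy is additive for all pairs `(X, Y)` with `X` a free profinite
action if and only if `h_H Y = [G : H] h_G Y` for all finite index subgroups `H` of `G`.  If `G` is
finitely generated, there is one free profinite action `X`, the same for all `Y`, such that
additivity for the single pair `(X, Y)` is equivalent to this formula.  If all finite index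
subgroups act ergodically on `Y`, then all free profinite `X` and all `X × Y` are ergodic.
-/

open MeasureTheory Pool.Agent.RokProd
open scoped ENNReal

namespace Pool.Agent.Results.MP_f9a59b_an.ProfiniteQ1

theorem result (G : Type) [Group G] [Countable G] [Infinite G] [Group.ResiduallyFinite G] :
    (∀ (Y : Type) [MeasurableSpace Y] [StandardBorelSpace Y] [MulAction G Y]
      [MeasurableConstSMul G Y] (ν : Measure Y) [IsProbabilityMeasure ν]
      [SMulInvariantMeasure G Y ν], rok G ν ≠ ⊤ →
      ((∀ (X : Type) [MeasurableSpace X] [StandardBorelSpace X] [MulAction G X]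
        [MeasurableConstSMul G X] (μ : Measure X) [IsProbabilityMeasure μ]
        [SMulInvariantMeasure G X μ], EssFree G μ → (∃ T : Tower G X, T.Profinite μ) →
        rok G (μ.prod ν) = rok G μ + rok G ν) ↔
      ∀ H : Subgroup G, H.FiniteIndex → rok H ν = (H.index : ℝ≥0∞) * rok G ν)) ∧
    (Group.FG G → ∃ (X : Type) (_ : MeasurableSpace X) (_ : StandardBorelSpace X)
      (_ : MulAction G X) (_ : MeasurableConstSMul G X) (μ : Measure X)
      (_ : IsProbabilityMeasure μ) (_ : SMulInvariantMeasure G X μ),
      EssFree G μ ∧ (∃ T : Tower G X, T.Profinite μ) ∧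
      ∀ (Y : Type) [MeasurableSpace Y] [StandardBorelSpace Y] [MulAction G Y]
      [MeasurableConstSMul G Y] (ν : Measure Y) [IsProbabilityMeasure ν]
      [SMulInvariantMeasure G Y ν], rok G ν ≠ ⊤ →
      (rok G (μ.prod ν) = rok G μ + rok G ν ↔
        ∀ H : Subgroup G, H.FiniteIndex → rok H ν = (H.index : ℝ≥0∞) * rok G ν)) ∧
    (∀ (Y : Type) [MeasurableSpace Y] [StandardBorelSpace Y] [MulAction G Y]
      [MeasurableConstSMul G Y] (ν : Measure Y) [IsProbabilityMeasure ν]
      [SMulInvariantMeasure G Y ν],
      (∀ K : Subgroup G, K.FiniteIndex → ErgodicSMul K Y ν) →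
      ∀ (X : Type) [MeasurableSpace X] [StandardBorelSpace X] [MulAction G X]
      [MeasurableConstSMul G X] (μ : Measure X) [IsProbabilityMeasure μ]
      [SMulInvariantMeasure G X μ], EssFree G μ → (∃ T : Tower G X, T.Profinite μ) →
      ErgodicSMul G X μ ∧ ErgodicSMul G (X × Y) (μ.prod ν)) := by
  refine ⟨?_, ?_, ?_⟩
  · intro Y _ _ _ _ ν _ _ hfin
    refine ⟨?_, ?_⟩
    · intro h H hH
      exact index_formula_of_additive G Y ν
        (fun X _ _ _ _ μ _ _ hX hT => h X μ hX hT) H hH
    · rintro h X _ _ _ _ μ _ _ - ⟨T, hprof⟩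
      exact (T.profinite_formula μ hprof ν hfin).2.2.2 (fun n => h _ (T.fin n))
  · intro hfg
    obtain ⟨N, hN, hNfin, hanti, htend, htriv, hcof⟩ :=
      exists_cofinal_chain G (exists_normal_of_residuallyFinite G)
    obtain ⟨X, i1, i2, i3, i4, μ, i5, i6, T, hT, hprof, hXfree⟩ :=
      exists_profinite G N hN hNfin hanti htend htriv
    refine ⟨X, i1, i2, i3, i4, μ, i5, i6,
      fun g hg => Filter.Eventually.of_forall (hXfree g hg), ⟨T, hprof⟩, ?_⟩
    intro Y _ _ _ _ ν _ _ hfin
    have hmain := (T.profinite_formula μ hprof ν hfin).2.2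
    constructor
    · intro h H hH
      obtain ⟨n, hn⟩ := hcof H hH
      have hn' : T.H n ≤ H := by
        rw [hT]
        exact hn
      exact index_formula_of_le ν (T.H n) H hn' (T.fin n) hH (hmain.1 h n)
    · intro h
      exact hmain.2 (fun n => h _ (T.fin n))
  · rintro Y _ _ _ _ ν _ _ herg X _ _ _ _ μ _ _ - ⟨T, hprof⟩
    have hprod := T.ergodic_prod μ hprof ν (fun n => herg _ (T.fin n))
    exact ⟨ergodic_fst μ ν hprod, hprod⟩

end Pool.Agent.Results.MP_f9a59b_an.ProfiniteQ1
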